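import Pool.Agent.Helper26.TK.Space

open Set Filter Topology MeasureTheory

namespace Pool.Agent.Helper79.TK

open Pool.Agent.Helper26.TK

variable {Φ : Set (Node →₀ ℝ)} {X : Type} [NormedAddCommGroup X] [NormedSpace ℝ X]

theorem ns_ext (H : NS Φ X) {v w : X} (h : ∀ t, H.co t v = H.co t w) : v = w := by
  have h1 : ‖v - w‖ ≤ 0 := by
    apply H.norm_le _ 0 le_rfl
    intro φ _
    have : ∑ t ∈ φ.support, φ t * H.co t (v - w) = 0 := by
      apply Finset.sum_eq_zero
      intro t _
      rw [map_sub, h t, sub_self, mul_zero]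
    rw [this, abs_zero]
  exact sub_eq_zero.1 (norm_le_zero_iff.1 h1)

theorem co_le (hΦ : Good Φ) (H : NS Φ X) (t : Node) (v : X) : |H.co t v| ≤ ‖v‖ := by
  have h := H.le_norm _ (hΦ.single t) v
  have hs : (Finsupp.single t (1 : ℝ)).support = {t} :=
    Finsupp.support_single t one_ne_zero
  rw [hs, Finset.sum_singleton, Finsupp.single_eq_same, one_mul] at h
  exact h

theorem co_sum (H : NS Φ X) (T : Finset Node) (a : Node → ℝ) (s : Node) :
    H.co s (∑ t ∈ T, a t • H.e t) = if s ∈ T then a s else 0 := by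
  classical
  rw [map_sum]
  have : ∀ t ∈ T, H.co s (a t • H.e t) = if s = t then a t else 0 := by
    intro t _
    rw [map_smul, H.co_e, smul_eq_mul]
    split_ifs <;> simp
  rw [Finset.sum_congr rfl this, Finset.sum_ite_eq]

/-- the bound on the norming functionals -/
def Bd (Φ : Set (Node →₀ ℝ)) (z : Node → ℝ) : Prop :=
  ∀ φ ∈ Φ, |∑ t ∈ φ.support, φ t * z t| ≤ 1

open Classical in
theorem Bd.restrict (hΦ : Good Φ) {z : Node → ℝ} (hz : Bd Φ z) (R : Set Node) :
    Bd Φ (fun t => if t ∈ R then z t else 0) := by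
  intro φ hφ
  let χ : Node →₀ ℝ := φ.filter (· ∈ R)
  have hχ : χ ∈ Φ := by
    apply hΦ.dom φ hφ
    intro t
    by_cases h : t ∈ R
    · right
      rw [Finsupp.filter_apply_pos _ _ h]
    · left
      rw [Finsupp.filter_apply_neg _ _ h]
  have h1 := hz χ hχ
  have h2 : ∑ t ∈ χ.support, χ t * z t = ∑ t ∈ φ.support, φ t * (if t ∈ R then z t else 0) := by
    rw [Finsupp.support_filter, Finset.sum_filter]
    apply Finset.sum_congr rfl
    intro t _
    by_cases h : t ∈ R
    · rw [if_pos h, if_pos h, Finsupp.filter_apply_pos _ _ h]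
    · rw [if_neg h, if_neg h, mul_zero]
  rw [← h2]
  exact h1

theorem norm_le_of_bd (H : NS Φ X) {z : Node → ℝ} (hz : Bd Φ z) {v : X}
    (hv : ∀ t, H.co t v = z t) : ‖v‖ ≤ 1 := by
  apply H.norm_le _ 1 zero_le_one
  intro φ hφ
  have : ∑ t ∈ φ.support, φ t * H.co t v = ∑ t ∈ φ.support, φ t * z t :=
    Finset.sum_congr rfl fun t _ => by rw [hv t]
  rw [this]
  exact hz φ hφ

theorem bd_of_norm (H : NS Φ X) {v : X} (hv : ‖v‖ ≤ 1) : Bd Φ (fun t => H.co t v) :=
  fun φ hφ => (H.le_norm φ hφ v).trans hv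

theorem isClosed_Bd (Φ : Set (Node →₀ ℝ)) : IsClosed {z | Bd Φ z} := by
  have : {z | Bd Φ z} = ⋂ φ ∈ Φ, {z : Node → ℝ | |∑ t ∈ φ.support, φ t * z t| ≤ 1} := by
    ext z
    simp only [Bd, Set.mem_ofPred_eq, Set.mem_iInter]
  rw [this]
  apply isClosed_biInter
  intro φ _
  apply isClosed_le
  · fun_prop
  · fun_prop

theorem bd_le (hΦ : Good Φ) {z : Node → ℝ} (hz : Bd Φ z) (t : Node) : |z t| ≤ 1 := by
  have h := hz _ (hΦ.single t)
  have hs : (Finsupp.single t (1 : ℝ)).support = {t} :=
    Finsupp.support_single t one_ne_zero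
  rw [hs, Finset.sum_singleton, Finsupp.single_eq_same, one_mul] at h
  exact h

theorem node_length (x : ℕ → Bool) (n : ℕ) : (node x n).length = n := by
  simp [node]

theorem node_inj (x : ℕ → Bool) : Function.Injective (node x) := by
  intro a b h
  have := congrArg List.length h
  rwa [node_length, node_length] at this

open Classical in
/-- vectors on one branch -/
theorem exists_branch (hBC : StmtBC) {f : (ℕ → ℕ) → (ℕ → Bool)} (hΦ : Good (Phi f))
    [CompleteSpace X] (H : NS (Phi f) X) (x : ℕ → Bool) {z : Node → ℝ} (hz : Bd (Phi f) z) :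
    ∃ v : X, ∀ t, H.co t v = if t = node x t.length then z t else 0 := by
  have hS : ∀ N t, H.co t (∑ n ∈ Finset.range N, z (node x n) • H.e (node x n)) =
      if t = node x t.length ∧ t.length < N then z t else 0 := by
    intro N t
    have e1 : ∑ n ∈ Finset.range N, z (node x n) • H.e (node x n) =
        ∑ s ∈ (Finset.range N).image (node x), z s • H.e s := by
      rw [Finset.sum_image fun a _ b _ h => node_inj x h]
    rw [e1, co_sum]
    have : t ∈ (Finset.range N).image (node x) ↔ t = node x t.length ∧ t.length < N := by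
      rw [Finset.mem_image]
      constructor
      · rintro ⟨n, hn, rfl⟩
        rw [node_length]
        exact ⟨rfl, Finset.mem_range.1 hn⟩
      · rintro ⟨h1, h2⟩
        exact ⟨t.length, Finset.mem_range.2 h2, h1.symm⟩
    simp only [this]
  obtain ⟨v, hv⟩ := hBC f x X H (fun n => z (node x n)) (by
    intro N
    have hb := hz.restrict hΦ {t | t = node x t.length ∧ t.length < N}
    refine norm_le_of_bd H hb fun t => ?_
    rw [hS N t]
    by_cases h : t = node x t.length ∧ t.length < N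
    · rw [if_pos h]
      exact (if_pos h).symm
    · rw [if_neg h]
      exact (if_neg h).symm)
  refine ⟨v, fun t => ?_⟩
  have h1 : Tendsto (fun N : ℕ => H.co t (∑ n ∈ Finset.range N, z (node x n) • H.e (node x n)))
      atTop (𝓝 (H.co t v)) := ((H.co t).continuous.tendsto v).comp hv
  refine tendsto_nhds_unique h1 ?_
  refine tendsto_const_nhds.congr' ?_
  filter_upwards [eventually_gt_atTop t.length] with N hN
  rw [hS N t]
  by_cases h : t = node x t.length
  · rw [if_pos h, if_pos ⟨h, hN⟩]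
  · rw [if_neg h, if_neg fun h' => h h'.1]

open Classical in
theorem exists_vec (hBC : StmtBC) {f : (ℕ → ℕ) → (ℕ → Bool)} (hΦ : Good (Phi f))
    [CompleteSpace X] (H : NS (Phi f) X) (m : ℕ) (F : Finset (ℕ → Bool)) :
    ∀ z : Node → ℝ, Bd (Phi f) z → (∀ t, t ∉ RR F m → z t = 0) →
      ∃ v : X, ∀ t, H.co t v = z t := by
  induction F using Finset.induction_on with
  | empty =>
    intro z hz hR
    have hfin : {t : Node | t.length < m}.Finite := List.finite_length_lt Bool m
    refine ⟨∑ t ∈ hfin.toFinset, z t • H.e t, fun t => ?_⟩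
    rw [co_sum]
    by_cases h : t ∈ hfin.toFinset
    · rw [if_pos h]
    · rw [if_neg h]
      symm
      apply hR
      rintro (h1 | ⟨x, hx, -⟩)
      · exact h (hfin.mem_toFinset.2 h1)
      · exact absurd hx (Finset.notMem_empty x)
  | insert x F' hx ih =>
    intro z hz hR
    obtain ⟨v₁, hv₁⟩ := ih _ (hz.restrict hΦ (RR F' m)) (fun t ht => if_neg ht)
    obtain ⟨v₂, hv₂⟩ := exists_branch hBC hΦ H x (hz.restrict hΦ (RR F' m)ᶜ)
    refine ⟨v₁ + v₂, fun t => ?_⟩
    rw [map_add, hv₁, hv₂]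
    by_cases h : t ∈ RR F' m
    · rw [if_pos h, if_neg (fun h' : t ∈ (RR F' m)ᶜ => h' h), ite_self, add_zero]
    · rw [if_neg h, zero_add]
      by_cases h2 : t = node x t.length
      · rw [if_pos h2, if_pos (show t ∈ (RR F' m)ᶜ from h)]
      · rw [if_neg h2]
        symm
        apply hR
        rintro (h3 | ⟨y, hy, h3⟩)
        · exact h (Or.inl h3)
        · rw [Finset.mem_insert] at hy
          rcases hy with rfl | hy
          · exact h2 h3
          · exact h (Or.inr ⟨y, hy, h3⟩)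

/-- finitely many shrinking branches -/
theorem exists_N (hP : StmtP) (hSH : StmtSH) {f : (ℕ → ℕ) → (ℕ → Bool)} (hf : Continuous f)
    (hΦ : Good (Phi f)) [CompleteSpace X] (H : NS (Phi f) X) (ψ : X →L[ℝ] ℝ)
    (F : Finset (ℕ → Bool)) :
    (∀ x ∈ F, x ∉ Set.range f) → ∀ η : ℝ, 0 < η →
      ∃ N : ℕ, ∀ v : X, ‖v‖ ≤ 1 →
        (∀ t : Node, H.co t v ≠ 0 → N ≤ t.length ∧ ∃ x ∈ F, t = node x t.length) →
          |ψ v| ≤ η := by
  classical
  induction F using Finset.induction_on with
  | empty =>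
    intro _ η hη
    refine ⟨0, fun v _ hv => ?_⟩
    have : v = 0 := by
      apply ns_ext H
      intro t
      by_contra h
      rw [map_zero] at h
      obtain ⟨-, x, hx, -⟩ := hv t h
      exact absurd hx (Finset.notMem_empty x)
    rw [this, map_zero, abs_zero]
    exact hη.le
  | insert x F' hx ih =>
    intro hF η hη
    obtain ⟨N₁, hN₁⟩ := ih (fun y hy => hF y (Finset.mem_insert_of_mem hy)) (η / 2) (by positivity)
    obtain ⟨N₂, hN₂⟩ := hSH f hf x (hF x (Finset.mem_insert_self _ _)) X H ψ (η / 2) (by positivity)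
    refine ⟨max N₁ N₂, fun v hv1 hv => ?_⟩
    set R : Set Node := {t | ∃ x ∈ F', t = node x t.length} with hR
    obtain ⟨P₁, hP₁, hP₁c⟩ := hP (Phi f) hΦ X H R
    obtain ⟨P₂, hP₂, hP₂c⟩ := hP (Phi f) hΦ X H Rᶜ
    have hdec : v = P₁ v + P₂ v := by
      apply ns_ext H
      intro t
      rw [map_add, hP₁c, hP₂c]
      by_cases h : t ∈ R
      · rw [if_pos h, if_neg (fun h' : t ∈ Rᶜ => h' h), add_zero]
      · rw [if_neg h, if_pos (show t ∈ Rᶜ from h), zero_add]
    have h1 : |ψ (P₁ v)| ≤ η / 2 := by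
      apply hN₁ _ ((hP₁ v).trans hv1)
      intro t ht
      rw [hP₁c] at ht
      by_cases h : t ∈ R
      · rw [if_pos h] at ht
        exact ⟨(le_max_left _ _).trans (hv t ht).1, h⟩
      · rw [if_neg h] at ht
        exact absurd rfl ht
    have h2 : |ψ (P₂ v)| ≤ η / 2 := by
      apply hN₂ _ ((hP₂ v).trans hv1)
      intro t ht
      rw [hP₂c] at ht
      by_cases h : t ∈ Rᶜ
      · rw [if_pos h] at ht
        obtain ⟨h3, y, hy, h4⟩ := hv t ht
        refine ⟨(le_max_right _ _).trans h3, ?_⟩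
        rw [Finset.mem_insert] at hy
        rcases hy with rfl | hy
        · exact h4
        · exact absurd ⟨y, hy, h4⟩ h
      · rw [if_neg h] at ht
        exact absurd rfl ht
    rw [hdec, map_add]
    calc |ψ (P₁ v) + ψ (P₂ v)| ≤ |ψ (P₁ v)| + |ψ (P₂ v)| := abs_add_le _ _
      _ ≤ η := by linarith

theorem exists_N' (hP : StmtP) (hSH : StmtSH) {f : (ℕ → ℕ) → (ℕ → Bool)} (hf : Continuous f)
    (hΦ : Good (Phi f)) [CompleteSpace X] (H : NS (Phi f) X) (ψ : X →L[ℝ] ℝ)
    (F : Finset (ℕ → Bool)) (hF : ∀ x ∈ F, x ∉ Set.range f) (m : ℕ) {η : ℝ} (hη : 0 < η) :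
    ∃ T : Finset Node, ∀ v ∈ KK H F m, |ψ v - ∑ t ∈ T, H.co t v * ψ (H.e t)| ≤ η := by
  classical
  obtain ⟨N₀, hN₀⟩ := exists_N hP hSH hf hΦ H ψ F hF η hη
  set N := max N₀ m with hN
  have hfin : {t : Node | t.length < N}.Finite := List.finite_length_lt Bool N
  obtain ⟨P, hP1, hPc⟩ := hP (Phi f) hΦ X H {t | N ≤ t.length}
  refine ⟨hfin.toFinset, fun v hv => ?_⟩
  have hdec : v = ∑ t ∈ hfin.toFinset, H.co t v • H.e t + P v := by
    apply ns_ext H
    intro t
    rw [map_add, co_sum, hPc]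
    by_cases h : t.length < N
    · rw [if_pos (hfin.mem_toFinset.2 h), if_neg, add_zero]
      exact fun h' : N ≤ t.length => absurd h (not_lt.2 h')
    · rw [if_neg (fun h' => h (hfin.mem_toFinset.1 h')), if_pos, zero_add]
      exact not_lt.1 h
  have h1 : ψ v - ∑ t ∈ hfin.toFinset, H.co t v * ψ (H.e t) = ψ (P v) := by
    conv_lhs => enter [1]; rw [hdec]
    rw [map_add, map_sum]
    simp only [map_smul, smul_eq_mul]
    ring
  rw [h1]
  apply hN₀ _ ((hP1 v).trans hv.1)
  intro t ht
  rw [hPc] at ht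
  by_cases h : t ∈ {t : Node | N ≤ t.length}
  · rw [if_pos h] at ht
    have h' : N ≤ t.length := h
    refine ⟨(le_max_left _ _).trans h', ?_⟩
    by_contra h2
    apply ht
    apply hv.2
    rintro (h3 | h3)
    · have := (le_max_right N₀ m).trans h'
      omega
    · exact h2 h3
  · rw [if_neg h] at ht
    exact absurd rfl ht

theorem stmtW (hP : StmtP) (hD : StmtD) (hSH : StmtSH) (hBC : StmtBC) : StmtW := by
  intro f hf X _ _ _ H F hF m
  classical
  have hΦ : Good (Phi f) := (hD f).1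
  let Z : Set (Node → ℝ) := {z | Bd (Phi f) z ∧ ∀ t, t ∉ RR F m → z t = 0}
  have hZc : IsCompact Z := by
    have h1 : IsCompact (Set.pi Set.univ fun _ : Node => Set.Icc (-1 : ℝ) 1) :=
      isCompact_univ_pi fun _ => isCompact_Icc
    apply h1.of_isClosed_subset
    · refine (isClosed_Bd (Phi f)).inter (s₂ := {z : Node → ℝ | ∀ t, t ∉ RR F m → z t = 0}) ?_
      have : {z : Node → ℝ | ∀ t, t ∉ RR F m → z t = 0} =
          ⋂ t ∈ (RR F m)ᶜ, {z : Node → ℝ | z t = 0} := by
        ext z
        simp only [Set.mem_ofPred_eq, Set.mem_iInter, Set.mem_compl_iff]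
      rw [this]
      apply isClosed_biInter
      intro t _
      exact isClosed_eq (continuous_apply t) continuous_const
    · intro z hz t _
      exact abs_le.1 (bd_le hΦ hz.1 t)
  have hex : ∀ z : Z, ∃ v : X, ∀ t, H.co t v = z.1 t := fun z =>
    exists_vec hBC hΦ H m F z.1 z.2.1 z.2.2
  choose G hG using hex
  have hGK : ∀ z, G z ∈ KK H F m := by
    intro z
    refine ⟨norm_le_of_bd H z.2.1 (hG z), fun t ht => ?_⟩
    rw [hG z]
    exact z.2.2 t ht
  have hcont : Continuous fun z : Z => toWeakSpace ℝ X (G z) := by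
    apply WeakBilin.continuous_of_continuous_eval
    intro ψ
    change Continuous fun z : Z => ψ (G z)
    apply continuous_of_uniform_approx_of_continuous
    intro u hu
    obtain ⟨η, hη, hηu⟩ := Metric.mem_uniformity_dist.1 hu
    obtain ⟨T, hT⟩ := exists_N' hP hSH hf hΦ H ψ F hF m (half_pos hη)
    refine ⟨fun z : Z => ∑ t ∈ T, z.1 t * ψ (H.e t), ?_, fun z => ?_⟩
    · apply continuous_finsetSum
      intro t _
      exact ((continuous_apply t).comp continuous_subtype_val).mul continuous_const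
    · apply hηu
      rw [Real.dist_eq]
      have h1 := hT (G z) (hGK z)
      simp only [hG] at h1
      exact h1.trans_lt (half_lt_self hη)
  have : CompactSpace Z := isCompact_iff_compactSpace.1 hZc
  have hrange : (toWeakSpace ℝ X) '' KK H F m = Set.range fun z : Z => toWeakSpace ℝ X (G z) := by
    ext y
    constructor
    · rintro ⟨v, hv, rfl⟩
      refine ⟨⟨fun t => H.co t v, bd_of_norm H hv.1, hv.2⟩, ?_⟩
      change toWeakSpace ℝ X _ = toWeakSpace ℝ X v
      congr 1
      apply ns_ext H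
      intro t
      rw [hG]
    · rintro ⟨z, rfl⟩
      exact ⟨G z, hGK z, rfl⟩
  rw [hrange]
  exact isCompact_range hcont

end Pool.Agent.Helper79.TK
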